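import Pool.Agent.H12.HS.Targets
import Pool.Agent.H12.HS.Basic

/-!
# HID: `T_t^2 = g` for a Hecke datum
-/

namespace Pool.Agent.H33.HZ.HID

open Matrix Pool.Agent.H12.HS

universe u

section
variable {P : Type u} [CommRing P] [IsDomain P] {g : P} {n : Type} [Fintype n] [DecidableEq n]
  {T : Matrix n n P} (D : HD g T)

theorem hu' (hT : T * T = g • (1 : Matrix n n P)) : T *ᵥ D.u' = D.h • D.u - D.a • D.u' := by
  have h1 : T *ᵥ (T *ᵥ D.u) = g • D.u := by
    rw [mulVec_mulVec, hT, smul_mulVec, one_mulVec]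
  rw [D.hu, mulVec_add, mulVec_smul, mulVec_smul, D.hu] at h1
  funext i
  have h2 := congrFun h1 i
  simp only [Pi.add_apply, Pi.smul_apply, smul_eq_mul, Pi.sub_apply] at h2 ⊢
  have h3 : g * D.u i = (D.a ^ 2 + D.l * D.h) * D.u i := by rw [← D.hg]
  have h4 : D.l * (T *ᵥ D.u') i = D.l * (D.h * D.u i - D.a * D.u' i) := by
    linear_combination h2 + h3
  exact mul_left_cancel₀ D.hl h4

theorem hφ' (hT : T * T = g • (1 : Matrix n n P)) : D.φ' ᵥ* T = D.h • D.φ - D.a • D.φ' := by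
  have h1 : (D.φ ᵥ* T) ᵥ* T = g • D.φ := by
    rw [vecMul_vecMul, hT, vecMul_smul, vecMul_one]
  rw [D.hφ, add_vecMul, smul_vecMul, smul_vecMul, D.hφ] at h1
  funext i
  have h2 := congrFun h1 i
  simp only [Pi.add_apply, Pi.smul_apply, smul_eq_mul, Pi.sub_apply] at h2 ⊢
  have h3 : g * D.φ i = (D.a ^ 2 + D.l * D.h) * D.φ i := by rw [← D.hg]
  have h4 : D.l * (D.φ' ᵥ* T) i = D.l * (D.h * D.φ i - D.a * D.φ' i) := by
    linear_combination h2 + h3
  exact mul_left_cancel₀ D.hl h4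

theorem hφ'u : D.φ' ⬝ᵥ D.u = D.l * D.ψ := by
  have h1 : (D.φ ᵥ* T) ⬝ᵥ D.u = D.φ ⬝ᵥ (T *ᵥ D.u) := (dotProduct_mulVec _ _ _).symm
  rw [D.hφ, D.hu, add_dotProduct, smul_dotProduct, smul_dotProduct, dotProduct_add,
    dotProduct_smul, dotProduct_smul, D.hφu, D.hψ] at h1
  simp only [smul_eq_mul] at h1
  have h4 : D.l * (D.φ' ⬝ᵥ D.u) = D.l * (D.l * D.ψ) := by linear_combination h1
  exact mul_left_cancel₀ D.hl h4

theorem hφ'u' (hT : T * T = g • (1 : Matrix n n P)) : D.φ' ⬝ᵥ D.u' = -(2 * D.a * D.ψ) := by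
  have h1 : (D.φ ᵥ* T) ⬝ᵥ D.u' = D.φ ⬝ᵥ (T *ᵥ D.u') := (dotProduct_mulVec _ _ _).symm
  rw [D.hφ, hu' D hT, add_dotProduct, smul_dotProduct, smul_dotProduct, dotProduct_sub,
    dotProduct_smul, dotProduct_smul, D.hφu, D.hψ] at h1
  simp only [smul_eq_mul] at h1
  have h4 : D.l * (D.φ' ⬝ᵥ D.u') = D.l * (-(2 * D.a * D.ψ)) := by linear_combination h1
  exact mul_left_cancel₀ D.hl h4

end

theorem hid : T_HID.{u} := by
  intro P _ _ g n _ _ T D hT
  have e1 := hu' D hT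
  have e2 := hφ' D hT
  have e3 := hφ'u D
  have e4 := hφ'u' D hT
  have e5 := D.hφu
  have e6 := D.hψ
  have e7 := D.hu
  have e8 := D.hφ
  refine ⟨?_, ?_, ?_, ?_⟩
  · rw [HD.D1, Matrix.mul_sub, Matrix.sub_mul, mul_vecMulVec, mul_vecMulVec, vecMulVec_mul,
      vecMulVec_mul, e1, e2, e7, e8]
    ext i j
    simp only [Matrix.add_apply, Matrix.sub_apply, vecMulVec_apply, Pi.add_apply, Pi.sub_apply,
      Pi.smul_apply, smul_eq_mul, Matrix.zero_apply]
    ring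
  · rw [HD.D1, HD.D2, Matrix.mul_neg, Matrix.neg_mul, Matrix.mul_smul, Matrix.smul_mul,
      mul_vecMulVec, vecMulVec_mul, e7, e8, Matrix.mul_sub, Matrix.sub_mul, Matrix.sub_mul,
      vecMulVec_mul_vecMulVec, vecMulVec_mul_vecMulVec, vecMulVec_mul_vecMulVec,
      vecMulVec_mul_vecMulVec, e3, e4, e5, e6]
    ext i j
    simp only [Matrix.add_apply, Matrix.sub_apply, vecMulVec_apply, Pi.add_apply, Pi.sub_apply,
      Pi.smul_apply, smul_eq_mul, Matrix.zero_apply, Matrix.neg_apply, Matrix.smul_apply]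
    ring
  · rw [HD.D1, HD.D2, Matrix.mul_neg, Matrix.neg_mul, Matrix.mul_smul, Matrix.smul_mul,
      Matrix.mul_sub, Matrix.sub_mul, 
      vecMulVec_mul_vecMulVec, vecMulVec_mul_vecMulVec, vecMulVec_mul_vecMulVec,
      vecMulVec_mul_vecMulVec, e3, e5, e6]
    ext i j
    simp only [Matrix.add_apply, Matrix.sub_apply, vecMulVec_apply, Pi.add_apply, Pi.sub_apply,
      Pi.smul_apply, smul_eq_mul, Matrix.zero_apply, Matrix.neg_apply, Matrix.smul_apply]
    ring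
  · rw [HD.D2, Matrix.mul_neg, Matrix.neg_mul, Matrix.mul_smul, Matrix.smul_mul,
      vecMulVec_mul_vecMulVec, e5]
    ext i j
    simp only [Matrix.add_apply, Matrix.sub_apply, vecMulVec_apply, Pi.add_apply, Pi.sub_apply,
      Pi.smul_apply, smul_eq_mul, Matrix.zero_apply, Matrix.neg_apply, Matrix.smul_apply]
    ring

end Pool.Agent.H33.HZ.HID
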