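import Pool.Agent.H12.HS.Targets
import Pool.Agent.H12.HS.Basic

/-!
# LA: linear algebra of pencils
-/

namespace Pool.Agent.H33.HZ.LA

open Matrix Pool.Agent.H12.HS

universe u

section
variable {Ω V : Type u} [Field Ω] [AddCommGroup V] [Module Ω V] [FiniteDimensional Ω V]

/-- the kernel of `A` is the common kernel. -/
theorem ker_le (A Y : V →ₗ[Ω] V) (t : Ω)
    (hB : ∀ v, (A + t • Y) v = 0 → Y v = 0)
    (hZ : ∀ v, Y v = 0 → A v = 0)
    (hK : ∀ v w, A v = Y w → ∃ w', Y v = A w') :
    ∀ v, A v = 0 → Y v = 0 := by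
  let F : Submodule Ω V →o Submodule Ω V :=
    ⟨fun U => Submodule.comap A (Submodule.map Y U), fun U U' h =>
      Submodule.comap_mono (Submodule.map_mono h)⟩
  let U := OrderHom.lfp F
  have hU : Submodule.comap A (Submodule.map Y U) = U := OrderHom.map_lfp F
  have hker : LinearMap.ker A ≤ U := by
    intro v hv
    rw [← hU, Submodule.mem_comap, LinearMap.mem_ker.1 hv]
    exact zero_mem _
  have hAY : Submodule.map A U = Submodule.map Y U := by
    apply le_antisymm
    · rintro _ ⟨v, hv, rfl⟩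
      have hv' : v ∈ U := hv
      rw [← hU] at hv'
      exact hv'
    · rintro _ ⟨v, hv, rfl⟩
      have hv' : v ∈ U := hv
      rw [← hU, Submodule.mem_comap] at hv'
      obtain ⟨w, hw, hwv⟩ := hv'
      obtain ⟨w', hw'⟩ := hK v w hwv.symm
      refine ⟨w', ?_, hw'.symm⟩
      change w' ∈ U
      rw [← hU, Submodule.mem_comap, ← hw']
      exact ⟨v, hv, rfl⟩
  have h1 := LinearMap.finrank_range_add_finrank_ker (A.domRestrict U)
  have h2 := LinearMap.finrank_range_add_finrank_ker ((A + t • Y).domRestrict U)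
  rw [LinearMap.range_domRestrict] at h1 h2
  have h3 : Module.finrank Ω (LinearMap.ker (A.domRestrict U)) =
      Module.finrank Ω (LinearMap.ker A) := by
    rw [LinearMap.ker_domRestrict]
    exact (Submodule.comapSubtypeEquivOfLe hker).finrank_eq
  have h4 : Module.finrank Ω (LinearMap.ker ((A + t • Y).domRestrict U)) ≤
      Module.finrank Ω (LinearMap.ker Y) := by
    rw [LinearMap.ker_domRestrict]
    refine LinearMap.finrank_le_finrank_of_injective
      (f := LinearMap.codRestrict (LinearMap.ker Y)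
        (U.subtype.domRestrict (Submodule.comap U.subtype (LinearMap.ker (A + t • Y)))) ?_) ?_
    · rintro ⟨v, hv⟩
      exact hB _ hv
    · rintro ⟨v, hv⟩ ⟨w, hw⟩ h
      have := congrArg Subtype.val h
      exact Subtype.ext (Subtype.ext this)
  have h5 : Module.finrank Ω (Submodule.map (A + t • Y) U) ≤
      Module.finrank Ω (Submodule.map Y U) := by
    apply Submodule.finrank_mono
    rintro _ ⟨v, hv, rfl⟩
    have e1 : A v ∈ Submodule.map Y U := by
      rw [← hAY]; exact ⟨v, hv, rfl⟩
    have e2 : Y v ∈ Submodule.map Y U := ⟨v, hv, rfl⟩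
    exact add_mem e1 (Submodule.smul_mem _ t e2)
  rw [hAY] at h1
  have h6 : Module.finrank Ω (LinearMap.ker A) ≤ Module.finrank Ω (LinearMap.ker Y) := by
    omega
  have h7 : LinearMap.ker Y ≤ LinearMap.ker A := fun v hv => hZ v hv
  have h8 := Submodule.eq_of_le_of_finrank_le h7 h6
  intro v hv
  have : v ∈ LinearMap.ker Y := by rw [h8]; exact hv
  exact this

end

theorem la : T_LA.{u} := by
  intro Ω _ _ n _ _ X Y S h1 h2 h3 h4
  classical
  -- all kernels agree
  have hall : ∀ c : Ω, ∀ v : n → Ω, (X + c • Y) *ᵥ v = 0 → Y *ᵥ v = 0 := by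
    intro c
    by_cases hc : c ∈ S
    · obtain ⟨c', hc'⟩ := Infinite.exists_notMem_finset S
      have := ker_le (ULift.moduleEquiv.symm.toLinearMap ∘ₗ Matrix.mulVecLin (X + c • Y) ∘ₗ
          (ULift.moduleEquiv : ULift.{u} (n → Ω) ≃ₗ[Ω] (n → Ω)).toLinearMap)
        (ULift.moduleEquiv.symm.toLinearMap ∘ₗ Matrix.mulVecLin Y ∘ₗ
          (ULift.moduleEquiv : ULift.{u} (n → Ω) ≃ₗ[Ω] (n → Ω)).toLinearMap) (c' - c) ?_ ?_ ?_
      · intro v hv
        have h := this ⟨v⟩ (by
          apply ULift.ext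
          exact hv)
        exact congrArg ULift.down h
      · rintro ⟨v⟩ hv
        have hv' : (X + c • Y) *ᵥ v + (c' - c) • (Y *ᵥ v) = 0 := congrArg ULift.down hv
        apply ULift.ext
        apply (h1 c' hc').1 v
        rw [← hv', add_mulVec, add_mulVec, smul_mulVec, smul_mulVec, sub_smul]
        abel
      · rintro ⟨v⟩ hv
        have hv' : Y *ᵥ v = 0 := congrArg ULift.down hv
        apply ULift.ext
        change (X + c • Y) *ᵥ v = 0
        rw [add_mulVec, smul_mulVec, hv', h2 v hv', smul_zero, add_zero]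
      · rintro ⟨v⟩ ⟨w⟩ hvw
        have hvw' : (X + c • Y) *ᵥ v = Y *ᵥ w := congrArg ULift.down hvw
        obtain ⟨w', hw'⟩ := h4 c hc v w hvw'
        exact ⟨⟨w'⟩, ULift.ext _ _ hw'⟩
    · exact (h1 c hc).1
  -- the image of `X` is in the image of `Y`
  have himg : ∀ v : n → Ω, Matrix.mulVecLin X v ∈ LinearMap.range (Matrix.mulVecLin Y) := by
    intro v
    by_contra hv
    obtain ⟨f, hf1, hf2⟩ := Submodule.exists_dual_map_eq_bot_of_notMem hv inferInstance
    let w : n → Ω := fun j => f (Pi.single j 1)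
    have hfw : ∀ z : n → Ω, f z = w ⬝ᵥ z := by
      intro z
      have : z = ∑ j, z j • (Pi.single j (1 : Ω) : n → Ω) := by
        funext i
        simp [Finset.sum_apply, Pi.single_apply]
      conv_lhs => rw [this]
      rw [map_sum]
      simp only [map_smul, smul_eq_mul, dotProduct, w]
      exact Finset.sum_congr rfl fun j _ => mul_comm _ _
    have hwY : w ᵥ* Y = 0 := by
      funext j
      have h5 : f (Y *ᵥ Pi.single j 1) = 0 := by
        have : f (Matrix.mulVecLin Y (Pi.single j 1)) ∈
            Submodule.map f (LinearMap.range (Matrix.mulVecLin Y)) :=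
          ⟨_, ⟨_, rfl⟩, rfl⟩
        rw [hf2] at this
        exact this
      rw [hfw, dotProduct_mulVec, dotProduct_single, mul_one] at h5
      exact h5
    have hwX := h3 w hwY
    apply hf1
    rw [hfw, Matrix.mulVecLin_apply, dotProduct_mulVec, hwX, zero_dotProduct]
  by_cases hY : LinearMap.range (Matrix.mulVecLin Y) = ⊥
  · have hY0 : ∀ v : n → Ω, Y *ᵥ v = 0 := by
      intro v
      have : Matrix.mulVecLin Y v ∈ LinearMap.range (Matrix.mulVecLin Y) := ⟨v, rfl⟩
      rw [hY] at this
      exact this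
    constructor
    · apply Matrix.ext_iff_mulVec.2 |> fun h => h
      intro v
      rw [h2 v (hY0 v), zero_mulVec]
    · apply Matrix.ext_iff_mulVec.2 |> fun h => h
      intro v
      rw [hY0 v, zero_mulVec]
  · exfalso
    let Yl := Matrix.mulVecLin Y
    let Xl := Matrix.mulVecLin X
    have hker : LinearMap.ker Yl ≤ LinearMap.ker Xl := fun v hv => h2 v hv
    let E0 : LinearMap.range Yl →ₗ[Ω] (n → Ω) :=
      ((LinearMap.ker Yl).liftQ Xl hker) ∘ₗ (Yl.quotKerEquivRange).symm.toLinearMap
    have hE0 : ∀ v, E0 ⟨Yl v, v, rfl⟩ = Xl v := by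
      intro v
      change ((LinearMap.ker Yl).liftQ Xl hker) ((Yl.quotKerEquivRange).symm ⟨Yl v, v, rfl⟩) = _
      have : (Yl.quotKerEquivRange).symm ⟨Yl v, v, rfl⟩ = Submodule.Quotient.mk v := by
        rw [LinearEquiv.symm_apply_eq]
        exact Subtype.ext (by simp)
      rw [this]
      exact Submodule.liftQ_apply _ _ _
    let E : LinearMap.range Yl →ₗ[Ω] LinearMap.range Yl :=
      LinearMap.codRestrict (LinearMap.range Yl) E0 (by
        rintro ⟨_, v, rfl⟩
        rw [hE0]
        exact himg v)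
    have : Nontrivial (LinearMap.range Yl) := Submodule.nontrivial_iff_ne_bot.2 hY
    obtain ⟨μ, hμ⟩ := Module.End.exists_eigenvalue E
    obtain ⟨⟨y, v, rfl⟩, hy⟩ := hμ.exists_hasEigenvector
    have h5 : Xl v = μ • Yl v := by
      have h6 := hy.apply_eq_smul
      have h7 := congrArg Subtype.val h6
      rw [← hE0 v]
      exact h7
    have h6 : (X + (-μ) • Y) *ᵥ v = 0 := by
      rw [add_mulVec, smul_mulVec]
      have : X *ᵥ v = μ • (Y *ᵥ v) := h5
      rw [this, neg_smul, add_neg_cancel]
    have h7 := hall _ _ h6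
    apply hy.2
    exact Subtype.ext h7

end Pool.Agent.H33.HZ.LA
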