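import Pool.Agent.H12.HS.Targets
import Pool.Agent.H12.HS.Basic

/-!
# SAT: duality of reductions of kernels
-/

namespace Pool.Agent.H33.HZ.SAT

open Matrix Pool.Agent.H12.HS

universe u

theorem sat : T_SAT.{u} := by
  intro Ω _ n _ _ N e hNN _ v hv
  classical
  obtain ⟨m, snf⟩ := Submodule.smithNormalForm (Pi.basisFun (PowerSeries Ω) n)
    (LinearMap.ker (Matrix.mulVecLin N))
  -- the coordinates outside the range of `snf.f` vanish on the image of `N`
  have hφ : ∀ (i : n) (w : n → PowerSeries Ω),
      (fun j => snf.bM.repr (Pi.single j 1) i) ⬝ᵥ w = snf.bM.repr w i := by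
    intro i w
    have : w = ∑ j, w j • (Pi.single j (1 : PowerSeries Ω) : n → PowerSeries Ω) := by
      funext i
      simp [Finset.sum_apply, Pi.single_apply]
    conv_rhs => rw [this]
    rw [map_sum, Finsupp.finsetSum_apply]
    simp only [map_smul, Finsupp.smul_apply, smul_eq_mul, dotProduct]
    exact Finset.sum_congr rfl fun j _ => mul_comm _ _
  have h0 : ∀ i, i ∉ Set.range snf.f → ∀ w, N *ᵥ w = 0 → snf.bM.repr w i = 0 := by
    intro i hi w hw
    have := snf.repr_eq_zero_of_notMem_range ⟨w, hw⟩ hi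
    exact this
  have h1 : ∀ i, i ∉ Set.range snf.f → PowerSeries.constantCoeff
      (snf.bM.repr (fun j => PowerSeries.C (v j)) i) = 0 := by
    intro i hi
    have h2 := hv (fun j => snf.bM.repr (Pi.single j 1) i) (by
      funext j
      have h3 := hφ i (N *ᵥ Pi.single j 1)
      rw [dotProduct_mulVec, dotProduct_single, mul_one] at h3
      rw [h3]
      apply h0 i hi
      rw [mulVec_mulVec, hNN, zero_mulVec])
    rw [← hφ, dotProduct, map_sum]
    rw [dotProduct] at h2
    rw [← h2]
    refine Finset.sum_congr rfl fun j _ => ?_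
    rw [map_mul, PowerSeries.constantCoeff_C]
  -- the basis vectors in the range of `snf.f` are in the kernel
  have h2 : ∀ i, i ∈ Set.range snf.f → N *ᵥ (snf.bM i) = 0 := by
    rintro _ ⟨j, rfl⟩
    have h3 : N *ᵥ (snf.bN j : n → PowerSeries Ω) = 0 := (snf.bN j).2
    rw [snf.snf j, mulVec_smul] at h3
    have h4 : snf.a j ≠ 0 := by
      intro h5
      have h6 : snf.bN j = 0 := by
        apply Subtype.ext
        rw [snf.snf j, h5, zero_smul]; rfl
      exact snf.bN.ne_zero j h6
    exact (smul_eq_zero.1 h3).resolve_left h4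
  refine ⟨∑ i, if i ∈ Set.range snf.f then
    snf.bM.repr (fun j => PowerSeries.C (v j)) i • snf.bM i else 0, ?_, ?_⟩
  · rw [mulVec_sum]
    refine Finset.sum_eq_zero fun i _ => ?_
    split_ifs with hi
    · rw [mulVec_smul, h2 i hi, smul_zero]
    · rw [mulVec_zero]
  · intro j
    have h3 := congrFun (snf.bM.sum_repr (fun j => PowerSeries.C (v j))) j
    rw [Finset.sum_apply] at h3 ⊢
    have h4 := congrArg PowerSeries.constantCoeff h3
    rw [PowerSeries.constantCoeff_C, map_sum] at h4
    rw [map_sum, ← h4]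
    refine Finset.sum_congr rfl fun i _ => ?_
    split_ifs with hi
    · rfl
    · rw [Pi.zero_apply, Pi.smul_apply, smul_eq_mul, map_mul, h1 i hi, zero_mul, map_zero]

end Pool.Agent.H33.HZ.SAT
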