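import Pool.Agent.H12.HS.Targets
import Pool.Agent.H12.HS.Basic
import Pool.Agent.H33.HZ.HID

/-!
# LIFT: lift of the ideal along a Hecke datum
-/

namespace Pool.Agent.H33.HZ.LIFT

open Matrix Pool.Agent.H12.HS

universe u

section gen
variable {P : Type u} [CommRing P] (g : P)

/-- constants -/
def cc : P →+* QuadraticAlgebra P g 0 := algebraMap P (QuadraticAlgebra P g 0)
/-- the square root of `g` -/
def zz : QuadraticAlgebra P g 0 := ⟨0, 1⟩

variable {g}

theorem cc_re (p : P) : (cc g p).re = p := rfl
theorem cc_im (p : P) : (cc g p).im = 0 := rfl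
theorem zz_re : (zz g).re = 0 := rfl
theorem zz_im : (zz g).im = 1 := rfl

theorem mul_re (a b : QuadraticAlgebra P g 0) : (a * b).re = a.re * b.re + g * a.im * b.im := by
  rw [QuadraticAlgebra.re_mul]
theorem mul_im (a b : QuadraticAlgebra P g 0) : (a * b).im = a.re * b.im + a.im * b.re := by
  rw [QuadraticAlgebra.im_mul]; ring

theorem zz_sq : zz g * zz g = cc g g := by
  apply QuadraticAlgebra.ext
  · rw [mul_re, cc_re, zz_re, zz_im]; ring
  · rw [mul_im, cc_im, zz_re, zz_im]; ring

theorem cc_mul_re (p : P) (q : QuadraticAlgebra P g 0) : (cc g p * q).re = p * q.re := by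
  rw [mul_re, cc_re, cc_im]; ring
theorem cc_mul_im (p : P) (q : QuadraticAlgebra P g 0) : (cc g p * q).im = p * q.im := by
  rw [mul_im, cc_re, cc_im]; ring

theorem dvd_iff (l : P) (q : QuadraticAlgebra P g 0) : cc g l ∣ q ↔ l ∣ q.re ∧ l ∣ q.im := by
  constructor
  · rintro ⟨r, rfl⟩
    rw [cc_mul_re, cc_mul_im]
    exact ⟨Dvd.intro _ rfl, Dvd.intro _ rfl⟩
  · rintro ⟨⟨a, ha⟩, ⟨b, hb⟩⟩
    refine ⟨⟨a, b⟩, ?_⟩
    apply QuadraticAlgebra.ext
    · rw [cc_mul_re]; exact ha
    · rw [cc_mul_im]; exact hb

theorem reg {l s : P} (hs : ∀ p, l ∣ s * p → l ∣ p) (q : QuadraticAlgebra P g 0)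
    (h : cc g l ∣ cc g s * q) : cc g l ∣ q := by
  rw [dvd_iff] at h ⊢
  rw [cc_mul_re, cc_mul_im] at h
  exact ⟨hs _ h.1, hs _ h.2⟩

theorem reg_pow {l s : P} (hs : ∀ p, l ∣ s * p → l ∣ p) (e : ℕ) :
    ∀ p, l ∣ s ^ e * p → l ∣ p := by
  induction e with
  | zero => intro p h; simpa using h
  | succ e ih =>
    intro p h
    rw [pow_succ, mul_assoc] at h
    exact hs _ (ih _ h)

theorem cancel [IsDomain P] {l : P} (hl : l ≠ 0) {a b : QuadraticAlgebra P g 0}
    (h : cc g l * a = cc g l * b) : a = b := by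
  apply QuadraticAlgebra.ext
  · have := congrArg QuadraticAlgebra.re h
    rw [cc_mul_re, cc_mul_re] at this
    exact mul_left_cancel₀ hl this
  · have := congrArg QuadraticAlgebra.im h
    rw [cc_mul_im, cc_mul_im] at this
    exact mul_left_cancel₀ hl this

theorem regseq {x y : P} (hxy : ∀ a b, x * a = y * b → ∃ c, a = y * c ∧ b = x * c)
    {a b : QuadraticAlgebra P g 0} (h : cc g x * a = cc g y * b) :
    ∃ c, a = cc g y * c ∧ b = cc g x * c := by
  have h1 := congrArg QuadraticAlgebra.re h
  have h2 := congrArg QuadraticAlgebra.im h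
  rw [cc_mul_re, cc_mul_re] at h1
  rw [cc_mul_im, cc_mul_im] at h2
  obtain ⟨c1, h11, h12⟩ := hxy _ _ h1
  obtain ⟨c2, h21, h22⟩ := hxy _ _ h2
  refine ⟨⟨c1, c2⟩, ?_, ?_⟩
  · apply QuadraticAlgebra.ext
    · rw [cc_mul_re]; exact h11
    · rw [cc_mul_im]; exact h21
  · apply QuadraticAlgebra.ext
    · rw [cc_mul_re]; exact h12
    · rw [cc_mul_im]; exact h22

theorem sum_re {ι : Type*} (s : Finset ι) (f : ι → QuadraticAlgebra P g 0) :
    (∑ i ∈ s, f i).re = ∑ i ∈ s, (f i).re := by
  classical
  induction s using Finset.induction_on with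
  | empty => simp
  | insert a s ha ih => rw [Finset.sum_insert ha, Finset.sum_insert ha, ← ih]; rfl

theorem sum_im {ι : Type*} (s : Finset ι) (f : ι → QuadraticAlgebra P g 0) :
    (∑ i ∈ s, f i).im = ∑ i ∈ s, (f i).im := by
  classical
  induction s using Finset.induction_on with
  | empty => simp
  | insert a s ha ih => rw [Finset.sum_insert ha, Finset.sum_insert ha, ← ih]; rfl

variable {n N : Type} [Fintype n] [DecidableEq n] [Fintype N] {T : Matrix n n P}
  {lam : N → n → P}

/-- `∑ r_i (lam_i . w)` -/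
def be (lam : N → n → P) (w : n → P) (r : N → QuadraticAlgebra P g 0) :
    QuadraticAlgebra P g 0 := ∑ i, r i * cc g (lam i ⬝ᵥ w)

omit [DecidableEq n] in
theorem be_smul (w : n → P) (q : QuadraticAlgebra P g 0) (r : N → QuadraticAlgebra P g 0) :
    be lam w (fun i => q * r i) = q * be lam w r := by
  rw [be, be, Finset.mul_sum]
  exact Finset.sum_congr rfl fun i _ => by ring

omit [DecidableEq n] in
theorem be_sub (w : n → P) (r r' : N → QuadraticAlgebra P g 0) :
    be lam w (fun i => r i - r' i) = be lam w r - be lam w r' := by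
  rw [be, be, be, ← Finset.sum_sub_distrib]
  exact Finset.sum_congr rfl fun i _ => by ring

omit [DecidableEq n] in
theorem be_add (w : n → P) (r r' : N → QuadraticAlgebra P g 0) :
    be lam w (fun i => r i + r' i) = be lam w r + be lam w r' := by
  rw [be, be, be, ← Finset.sum_add_distrib]
  exact Finset.sum_congr rfl fun i _ => by ring

omit [DecidableEq n] in
theorem be_re (w : n → P) (r : N → QuadraticAlgebra P g 0) :
    (be lam w r).re = ∑ i, (r i).re * (lam i ⬝ᵥ w) := by
  rw [be, sum_re]
  refine Finset.sum_congr rfl fun i _ => ?_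
  rw [mul_comm, cc_mul_re, mul_comm]

omit [DecidableEq n] in
theorem be_im (w : n → P) (r : N → QuadraticAlgebra P g 0) :
    (be lam w r).im = ∑ i, (r i).im * (lam i ⬝ᵥ w) := by
  rw [be, sum_im]
  refine Finset.sum_congr rfl fun i _ => ?_
  rw [mul_comm, cc_mul_im, mul_comm]

omit [DecidableEq n] in
theorem act_dot (w : n → P) (r : N → QuadraticAlgebra P g 0) :
    act T lam r ⬝ᵥ w = (be lam w r).re + (be lam (T *ᵥ w) r).im := by
  rw [act, sum_dotProduct, be_re, be_im, ← Finset.sum_add_distrib]
  refine Finset.sum_congr rfl fun i _ => ?_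
  rw [add_dotProduct, smul_dotProduct, smul_dotProduct, dotProduct_mulVec]
  simp only [smul_eq_mul]

omit [DecidableEq n] in
theorem be_lin (p q : P) (w w' : n → P) (r : N → QuadraticAlgebra P g 0) :
    be lam (p • w + q • w') r = cc g p * be lam w r + cc g q * be lam w' r := by
  rw [be, be, be, Finset.mul_sum, Finset.mul_sum, ← Finset.sum_add_distrib]
  refine Finset.sum_congr rfl fun i _ => ?_
  rw [dotProduct_add, dotProduct_smul, dotProduct_smul]
  simp only [smul_eq_mul, map_add, map_mul]
  ring

theorem act_mul (hT : T * T = g • (1 : Matrix n n P)) (q : QuadraticAlgebra P g 0)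
    (r : N → QuadraticAlgebra P g 0) :
    act T lam (fun i => q * r i) = q.re • act T lam r + q.im • (act T lam r ᵥ* T) := by
  rw [act, act, Finset.smul_sum]
  have h1 : (∑ i, ((r i).re • lam i + (r i).im • (lam i ᵥ* T))) ᵥ* T =
      ∑ i, ((r i).re • (lam i ᵥ* T) + (r i).im • (g • lam i)) := by
    rw [sum_vecMul]
    refine Finset.sum_congr rfl fun i _ => ?_
    rw [add_vecMul, smul_vecMul, smul_vecMul, vecMul_vecMul, hT, vecMul_smul, vecMul_one]
  rw [h1, Finset.smul_sum, ← Finset.sum_add_distrib]
  refine Finset.sum_congr rfl fun i _ => ?_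
  rw [mul_re, mul_im]
  funext j
  simp only [Pi.add_apply, Pi.smul_apply, smul_eq_mul]
  ring

omit [DecidableEq n] in
theorem act_sub (r r' : N → QuadraticAlgebra P g 0) :
    act T lam (fun i => r i - r' i) = act T lam r - act T lam r' := by
  rw [act, act, act, ← Finset.sum_sub_distrib]
  refine Finset.sum_congr rfl fun i _ => ?_
  funext j
  simp only [Pi.add_apply, Pi.smul_apply, smul_eq_mul, Pi.sub_apply, QuadraticAlgebra.re_sub,
    QuadraticAlgebra.im_sub]
  ring

omit [DecidableEq n] in
theorem act1_vec (w φ : n → P) (r : N → QuadraticAlgebra P g 0) :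
    act1 (vecMulVec w φ) lam r = (be lam w r).im • φ := by
  rw [act1, be_im, Finset.sum_smul]
  refine Finset.sum_congr rfl fun i _ => ?_
  rw [vecMul_vecMulVec, mul_smul]

omit [DecidableEq n] in
theorem act1_sub (D D' : Matrix n n P) (r : N → QuadraticAlgebra P g 0) :
    act1 (D - D') lam r = act1 D lam r - act1 D' lam r := by
  rw [act1, act1, act1, ← Finset.sum_sub_distrib]
  refine Finset.sum_congr rfl fun i _ => ?_
  rw [vecMul_sub, smul_sub]

omit [DecidableEq n] in
theorem act1_neg_smul (p : P) (D : Matrix n n P) (r : N → QuadraticAlgebra P g 0) :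
    act1 (-(p • D)) lam r = -(p • act1 D lam r) := by
  rw [act1, act1, Finset.smul_sum, ← Finset.sum_neg_distrib]
  refine Finset.sum_congr rfl fun i _ => ?_
  rw [vecMul_neg, vecMul_smul, smul_neg, smul_comm]

end gen

theorem lift : T_LIFT.{u} := by
  intro P _ _ g n N _ _ _ T lam f D h2 hT hf hker x y hx hy hxy hsx hsy ⟨e, hse⟩
  have hTu' := HID.hu' D hT
  have hφ'u := HID.hφ'u D
  have hl := D.hl
  -- the basic relation (1)
  have hbu : ∀ r : N → QuadraticAlgebra P g 0,
      be lam (T *ᵥ D.u) r = cc g D.a * be lam D.u r + cc g D.l * be lam D.u' r := by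
    intro r; rw [D.hu, be_lin]
  have hbu' : ∀ r : N → QuadraticAlgebra P g 0,
      be lam (T *ᵥ D.u') r = cc g D.h * be lam D.u r + cc g (-D.a) * be lam D.u' r := by
    intro r
    rw [hTu', ← be_lin]
    congr 1
    rw [neg_smul]; exact sub_eq_add_neg _ _
  have h1 : ∀ r : N → QuadraticAlgebra P g 0, act T lam r ⬝ᵥ D.u =
      (be lam D.u r).re + D.a * (be lam D.u r).im + D.l * (be lam D.u' r).im := by
    intro r
    rw [act_dot, hbu, QuadraticAlgebra.im_add, cc_mul_im, cc_mul_im]; ring
  have h1' : ∀ r : N → QuadraticAlgebra P g 0, act T lam r ⬝ᵥ D.u' =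
      (be lam D.u' r).re + D.h * (be lam D.u r).im - D.a * (be lam D.u' r).im := by
    intro r
    rw [act_dot, hbu', QuadraticAlgebra.im_add, cc_mul_im, cc_mul_im]; ring
  have h1Q : ∀ r : N → QuadraticAlgebra P g 0,
      (zz g + cc g D.a) * be lam D.u r + cc g D.l * be lam D.u' r =
      cc g D.l * cc g (act T lam r ⬝ᵥ D.u') + (zz g + cc g D.a) * cc g (act T lam r ⬝ᵥ D.u) := by
    intro r
    have hg := D.hg
    rw [h1, h1']
    apply QuadraticAlgebra.ext
    · rw [QuadraticAlgebra.re_add, QuadraticAlgebra.re_add, cc_mul_re, cc_mul_re, mul_re, mul_re,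
        QuadraticAlgebra.re_add, QuadraticAlgebra.im_add, zz_re, zz_im, cc_re, cc_re, cc_re,
        cc_im, cc_im]
      linear_combination (be lam D.u r).im * hg
    · rw [QuadraticAlgebra.im_add, QuadraticAlgebra.im_add, cc_mul_im, cc_mul_im, mul_im, mul_im,
        QuadraticAlgebra.re_add, QuadraticAlgebra.im_add, zz_re, zz_im, cc_re, cc_re,
        cc_im, cc_im, cc_im]
      ring
  have hff : (zz g + cc g D.a) * be lam D.u f = -(cc g D.l * be lam D.u' f) := by
    have := h1Q f
    rw [hf, zero_dotProduct, zero_dotProduct, map_zero] at this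
    linear_combination this
  -- the general construction of `X` with divisibility by `l`
  have key : ∀ x : P, ∀ rx : N → QuadraticAlgebra P g 0, act T lam rx = x • D.φ →
      ∀ i, cc g D.l ∣ be lam D.u f * rx i - be lam D.u rx * f i := by
    intro x rx hrx i
    obtain ⟨r', hr'⟩ := hse D.φ'
    have hrr : (zz g + cc g D.a) * be lam D.u rx =
        -(cc g D.l * be lam D.u' rx) + cc g x * cc g D.l ^ 2 * cc g D.ψ := by
      have := h1Q rx
      rw [hrx, smul_dotProduct, smul_dotProduct, D.hφu, D.hψ] at this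
      simp only [smul_eq_mul, mul_zero, map_zero, map_mul] at this
      linear_combination this
    have hX : (zz g + cc g D.a) * (be lam D.u f * rx i - be lam D.u rx * f i) =
        -(cc g D.l * (be lam D.u' f * rx i - be lam D.u' rx * f i)) -
          cc g x * cc g D.l ^ 2 * cc g D.ψ * f i := by
      linear_combination rx i * hff - f i * hrr
    -- (3)
    have hk : act T lam (fun j => (cc g (D.s ^ e) * (zz g - cc g D.a)) * rx j -
        cc g (x * D.l) * r' j) = 0 := by
      rw [act_sub, act_mul hT, act_mul hT, hrx, hr']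
      rw [smul_vecMul, D.hφ, mul_re, mul_im, cc_re, cc_im, cc_re, cc_im,
        QuadraticAlgebra.re_sub, QuadraticAlgebra.im_sub, zz_re, zz_im, cc_re, cc_im]
      funext j
      simp only [Pi.add_apply, Pi.smul_apply, smul_eq_mul, Pi.sub_apply, Pi.zero_apply]
      ring
    obtain ⟨γ, hγ⟩ := hker _ hk
    have hγb : ∀ w : n → P, cc g (D.s ^ e) * (zz g - cc g D.a) * be lam w rx -
        cc g (x * D.l) * be lam w r' = γ * be lam w f := by
      intro w
      have : (fun j => (cc g (D.s ^ e) * (zz g - cc g D.a)) * rx j -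
        cc g (x * D.l) * r' j) = fun j => γ * f j := funext hγ
      have h5 := congrArg (be lam w) this
      rw [be_sub, be_smul, be_smul, be_smul] at h5
      exact h5
    have h3 : ∀ w : n → P, cc g (D.s ^ e) * ((zz g - cc g D.a) *
        (be lam w f * rx i - be lam w rx * f i)) =
        cc g D.l * (cc g x * (be lam w f * r' i - be lam w r' * f i)) := by
      intro w
      have h6 := hγ i
      have h7 := hγb w
      simp only [map_mul] at h6 h7 ⊢
      linear_combination be lam w f * h6 - f i * h7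
    rcases D.ha with ha | ⟨ha0, hh⟩
    · have h8 : cc g D.l ∣ cc g (D.s ^ e) * (cc g D.a * (cc g 2 *
          (be lam D.u f * rx i - be lam D.u rx * f i))) := by
        refine ⟨-(cc g (D.s ^ e) * (be lam D.u' f * rx i - be lam D.u' rx * f i)) -
          cc g (D.s ^ e) * cc g x * cc g D.l * cc g D.ψ * f i -
          (cc g x * (be lam D.u f * r' i - be lam D.u r' * f i)), ?_⟩
        have h9 := h3 D.u
        have h2' : cc g (2 : P) = 2 := map_ofNat _ _
        rw [h2']
        linear_combination cc g (D.s ^ e) * hX - h9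
      have h10 := reg ha _ (reg (reg_pow D.hs e) _ h8)
      obtain ⟨v, hv⟩ := h2
      have h11 : be lam D.u f * rx i - be lam D.u rx * f i =
          cc g (↑(v⁻¹) : P) * (cc g 2 * (be lam D.u f * rx i - be lam D.u rx * f i)) := by
        rw [← mul_assoc, ← map_mul, ← hv, Units.inv_mul, map_one, one_mul]
      rw [h11]
      exact Dvd.dvd.mul_left h10 _
    · have h9 := h3 D.u'
      rw [ha0] at h9 hX
      simp only [map_zero, sub_zero, add_zero] at h9 hX
      have h10 : cc g D.l ∣ zz g * (be lam D.u' f * rx i - be lam D.u' rx * f i) :=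
        reg (reg_pow D.hs e) _ ⟨_, h9⟩
      have hg := D.hg
      rw [ha0] at hg
      have hg' : cc g g = cc g D.l * cc g D.h := by
        rw [← map_mul]; congr 1; linear_combination hg
      have h11 : cc g D.l * (cc g D.h * (be lam D.u f * rx i - be lam D.u rx * f i)) =
          cc g D.l * (-(zz g * (be lam D.u' f * rx i - be lam D.u' rx * f i)) -
            cc g x * cc g D.l * cc g D.ψ * zz g * f i) := by
        have hz := zz_sq (g := g)
        rw [hg'] at hz
        linear_combination zz g * hX - (be lam D.u f * rx i - be lam D.u rx * f i) * hz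
      have h12 := cancel hl h11
      apply reg hh
      rw [h12]
      apply dvd_sub
      · exact (dvd_neg).2 h10
      · exact ⟨cc g x * cc g D.ψ * zz g * f i, by ring⟩
  obtain ⟨rx, hrx⟩ := hsx D.φ
  obtain ⟨ry, hry⟩ := hsy D.φ
  choose Yx hYx using key x rx hrx
  choose Yy hYy using key y ry hry
  -- (5)
  have hk : act T lam (fun j => cc g y * rx j - cc g x * ry j) = 0 := by
    rw [act_sub, act_mul hT, act_mul hT, hrx, hry, cc_re, cc_im, cc_re, cc_im]
    funext j
    simp only [Pi.add_apply, Pi.smul_apply, smul_eq_mul, Pi.sub_apply, Pi.zero_apply]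
    ring
  obtain ⟨γ, hγ⟩ := hker _ hk
  have hγb : cc g y * be lam D.u rx - cc g x * be lam D.u ry = γ * be lam D.u f := by
    have : (fun j => cc g y * rx j - cc g x * ry j) = fun j => γ * f j := funext hγ
    have h5 := congrArg (be lam D.u) this
    rw [be_sub, be_smul, be_smul, be_smul] at h5
    exact h5
  have h5 : ∀ i, cc g x * Yy i = cc g y * Yx i := by
    intro i
    apply cancel hl
    have e1 := hYx i
    have e2 := hYy i
    have e3 := hγ i
    linear_combination cc g y * e1 - cc g x * e2 - be lam D.u f * e3 + f i * hγb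
  choose f' hf1 hf2 using fun i => regseq hxy (h5 i)
  have hX : ∀ i, be lam D.u f * rx i - be lam D.u rx * f i = cc g D.l * (cc g x * f' i) := by
    intro i
    rw [hYx i, hf2 i]
  -- (6)
  have hXf : (fun i => be lam D.u f * rx i - be lam D.u rx * f i) =
      fun i => cc g (D.l * x) * f' i := by
    funext i; rw [hX i, map_mul]; ring
  have hre : (be lam D.u f).re = -(D.a * (be lam D.u f).im) - D.l * (be lam D.u' f).im := by
    have := h1 f
    rw [hf, zero_dotProduct] at this
    linear_combination -this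
  have hact : act T lam f' = (be lam D.u f).im • D.φ' - (be lam D.u' f).im • D.φ := by
    have h6 := congrArg (act T lam) hXf
    rw [act_sub, act_mul hT, act_mul hT, act_mul hT, hrx, hf, cc_re, cc_im, smul_vecMul,
      D.hφ, hre] at h6
    funext j
    have h7 := congrFun h6 j
    simp only [Pi.add_apply, Pi.smul_apply, smul_eq_mul, Pi.sub_apply, Pi.zero_apply, mul_zero,
      zero_vecMul, zero_mul, add_zero, sub_zero] at h7 ⊢
    have h8 : (D.l * x) * act T lam f' j = (D.l * x) * ((be lam D.u f).im * D.φ' j -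
      (be lam D.u' f).im * D.φ j) := by linear_combination -h7
    exact mul_left_cancel₀ (mul_ne_zero hl hx) h8
  have hD1 : ∀ r : N → QuadraticAlgebra P g 0, act1 D.D1 lam r =
      (be lam D.u' r).im • D.φ - (be lam D.u r).im • D.φ' := by
    intro r
    rw [HD.D1, act1_sub, act1_vec, act1_vec]
  have hD2 : ∀ r : N → QuadraticAlgebra P g 0, act1 D.D2 lam r =
      -(D.ψ • ((be lam D.u r).im • D.φ)) := by
    intro r
    rw [HD.D2, act1_neg_smul, act1_vec]
  -- (7)
  have h7 : be lam D.u f' = 0 := by
    have h8 := congrArg (be lam D.u) hXf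
    rw [be_sub, be_smul, be_smul, be_smul] at h8
    have h9 : cc g (D.l * x) * be lam D.u f' = cc g (D.l * x) * 0 := by
      rw [← h8]; ring
    exact cancel (mul_ne_zero hl hx) h9
  have h8 : (be lam D.u' f').im = D.ψ * (be lam D.u f).im := by
    have h9 := h1 f'
    rw [hact, h7, sub_dotProduct, smul_dotProduct, smul_dotProduct, hφ'u, D.hφu] at h9
    simp only [smul_eq_mul, QuadraticAlgebra.re_zero, QuadraticAlgebra.im_zero] at h9
    have h10 : D.l * (be lam D.u' f').im = D.l * (D.ψ * (be lam D.u f).im) := by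
      linear_combination -h9
    exact mul_left_cancel₀ hl h10
  refine ⟨f', ?_, ?_, ?_⟩
  · rw [hact, hD1]
    funext j
    simp only [Pi.add_apply, Pi.smul_apply, smul_eq_mul, Pi.sub_apply, Pi.zero_apply]
    ring
  · rw [hD1, hD2, h7, h8]
    funext j
    simp only [Pi.add_apply, Pi.smul_apply, smul_eq_mul, Pi.sub_apply, Pi.zero_apply,
      Pi.neg_apply, QuadraticAlgebra.im_zero]
    ring
  · rw [hD2, h7]
    funext j
    simp only [Pi.smul_apply, smul_eq_mul, Pi.zero_apply, Pi.neg_apply, QuadraticAlgebra.im_zero]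
    ring

end Pool.Agent.H33.HZ.LIFT
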